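import Mathlib
import Pool.Agent.Q214.LP.Code

/-!
MP_b9d480: `𝒫(ω)/fin` embeds into the quasi-orders of Lipschitz and of `C^∞` reducibility on the
`D₂(Σ⁰₁)` subsets of the real line (both questions; one map works for both).
-/

namespace Pool.Agent.Results.MP_b9d480_lc.LipschitzSmooth

open Filter Topology Set Q214.LP

/-- intersections of an open set and a closed set -/
def IsD2 (A : Set ℝ) : Prop := ∃ U F : Set ℝ, IsOpen U ∧ IsClosed F ∧ A = U ∩ F

/-- `A = f⁻¹[B]` for a Lipschitz function `f : ℝ → ℝ` -/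
def LipRed (A B : Set ℝ) : Prop := ∃ f : ℝ → ℝ, (∃ K : NNReal, LipschitzWith K f) ∧ A = f ⁻¹' B

/-- `A = f⁻¹[B]` for an infinitely differentiable function `f : ℝ → ℝ` -/
def SmoothRed (A B : Set ℝ) : Prop := ∃ f : ℝ → ℝ, ContDiff ℝ (⊤ : ℕ∞) f ∧ A = f ⁻¹' B

/-- `x ⊆* y` -/
def AlmostSubset (x y : Set ℕ) : Prop := (x \ y).Finite

theorem almostSubset_refl (x : Set ℕ) : AlmostSubset x x := by
  unfold AlmostSubset
  simp

theorem almostSubset_trans {x y z : Set ℕ} (h1 : AlmostSubset x y) (h2 : AlmostSubset y z) :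
    AlmostSubset x z := by
  refine (h1.union h2).subset (fun i hi => ?_)
  by_cases hy : i ∈ y
  · exact Or.inr ⟨hy, hi.2⟩
  · exact Or.inl ⟨hi.1, hy⟩

/-- equality modulo finite sets -/
def sd : Setoid (Set ℕ) where
  r x y := AlmostSubset x y ∧ AlmostSubset y x
  iseqv := ⟨fun x => ⟨almostSubset_refl x, almostSubset_refl x⟩, fun h => ⟨h.2, h.1⟩,
    fun h1 h2 => ⟨almostSubset_trans h1.1 h2.1, almostSubset_trans h2.2 h1.2⟩⟩

noncomputable def rep (x : Set ℕ) : Set ℕ := (Quotient.mk sd x).out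

theorem rep_rel (x : Set ℕ) : AlmostSubset (rep x) x ∧ AlmostSubset x (rep x) :=
  Quotient.exact (s := sd) (Quotient.out_eq (Quotient.mk sd x))

theorem rep_eq {x y : Set ℕ} (h : AlmostSubset x y) (h' : AlmostSubset y x) : rep x = rep y := by
  have : Quotient.mk sd x = Quotient.mk sd y := Quotient.sound (s := sd) ⟨h, h'⟩
  unfold rep
  rw [this]

/-- the embedding -/
noncomputable def A (x : Set ℕ) : Set ℝ := range (aa (rep x))

theorem isD2_range (z : Set ℕ) : IsD2 (range (aa z)) := by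
  refine ⟨Ioi 0, insert 0 (range (aa z)), isOpen_Ioi, (aa_tendsto z).isCompact_insert_range.isClosed, ?_⟩
  ext t
  constructor
  · rintro ⟨n, rfl⟩
    exact ⟨aa_pos z n, Or.inr ⟨n, rfl⟩⟩
  · rintro ⟨h1, h2⟩
    rcases h2 with h2 | h2
    · rw [h2] at h1
      exact absurd (show (0 : ℝ) < 0 from h1) (lt_irrefl _)
    · exact h2

theorem exists_both {x y : Set ℕ} (h : AlmostSubset x y) :
    ∃ f : ℝ → ℝ, (∃ K : NNReal, LipschitzWith K f) ∧ ContDiff ℝ (⊤ : ℕ∞) f ∧ A x = f ⁻¹' A y := by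
  by_cases h' : AlmostSubset y x
  · refine ⟨id, ⟨1, LipschitzWith.id⟩, contDiff_id, ?_⟩
    unfold A
    rw [rep_eq h h']
    rfl
  · have e1 : AlmostSubset (rep x) (rep y) :=
      almostSubset_trans (rep_rel x).1 (almostSubset_trans h (rep_rel y).2)
    have e2 : ¬ AlmostSubset (rep y) (rep x) := fun hc =>
      h' (almostSubset_trans (rep_rel y).2 (almostSubset_trans hc (rep_rel x).1))
    have hs := strict_summable e1 e2
    exact ⟨_, ff_lipschitz (aa_anti _) (aa_anti _) (aa_tendsto _) (aa_tendsto _) hs,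
      ff_smooth (aa_anti _) (aa_anti _) (aa_tendsto _) (aa_tendsto _) hs,
      ff_preimage (aa_anti _) (aa_anti _) (aa_tendsto _) (aa_tendsto _) hs⟩

theorem not_red {x y : Set ℕ} (h : ¬ AlmostSubset x y) {f : ℝ → ℝ} (hf : Continuous f)
    (hred : A x = f ⁻¹' A y) {L δ : ℝ} (hδ : 0 < δ)
    (hL : ∀ t, |t| < δ → |f t - f 0| ≤ L * |t|) : False := by
  have e : ¬ AlmostSubset (rep x) (rep y) := fun hc =>
    h (almostSubset_trans (rep_rel x).2 (almostSubset_trans hc (rep_rel y).1))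
  exact no_reduction e hf hred hδ hL

/-- **MP_b9d480, Q1 and Q2: Yes.** There is one map `x ↦ A x` from the subsets of `ω` to the
`D₂(Σ⁰₁)` subsets of `ℝ` which embeds `𝒫(ω)/fin` both into the quasi-order of Lipschitz
reducibility and into the quasi-order of `C^∞` reducibility. -/
theorem result : ∃ A : Set ℕ → Set ℝ, (∀ x, IsD2 (A x)) ∧
    (∀ x y, AlmostSubset x y ↔ LipRed (A x) (A y)) ∧
    (∀ x y, AlmostSubset x y ↔ SmoothRed (A x) (A y)) := by
  refine ⟨A, fun x => isD2_range _, fun x y => ⟨fun h => ?_, fun h => ?_⟩,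
    fun x y => ⟨fun h => ?_, fun h => ?_⟩⟩
  · obtain ⟨f, h1, -, h3⟩ := exists_both h
    exact ⟨f, h1, h3⟩
  · obtain ⟨f, ⟨K, hK⟩, hred⟩ := h
    by_contra hc
    refine not_red hc hK.continuous hred (L := K) one_pos (fun t _ => ?_)
    have := hK.dist_le_mul t 0
    rwa [Real.dist_eq, Real.dist_eq, sub_zero] at this
  · obtain ⟨f, -, h2, h3⟩ := exists_both h
    exact ⟨f, h2, h3⟩
  · obtain ⟨f, hf, hred⟩ := h
    by_contra hc
    obtain ⟨K, s, hs, hK⟩ := (hf.of_le (by exact_mod_cast le_top : (1 : WithTop ℕ∞) ≤ _)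
      : ContDiff ℝ 1 f).contDiffAt.exists_lipschitzOnWith (x := 0)
    obtain ⟨δ, hδ, hδs⟩ := Metric.mem_nhds_iff.1 hs
    refine not_red hc hf.continuous hred (L := K) hδ (fun t ht => ?_)
    have h1 : t ∈ s := hδs (by rw [Metric.mem_ball, Real.dist_eq, sub_zero]; exact ht)
    have h2 : (0 : ℝ) ∈ s := hδs (Metric.mem_ball_self hδ)
    have := hK.dist_le_mul t h1 0 h2
    rwa [Real.dist_eq, Real.dist_eq, sub_zero] at this

end Pool.Agent.Results.MP_b9d480_lc.LipschitzSmooth
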